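import Pool.Agent.H361R2.PP.Iface4
import Pool.Agent.Helper923.PNT

/-!
Task PP-TRA of project PP (helper361): from integers in `[X, 2X)` to indices of primes.
-/

set_option autoImplicit false

open Finset Filter Topology

namespace Pool.Agent.H403R2.PP

open Pool.Agent.H361R2.PP

/-- eventual inequalities for the choice of the scale -/
lemma scale_choice (Λ : ℝ) (X₀ : ℕ) : ∃ N₀ : ℕ, ∀ N : ℕ, N₀ ≤ N →
    ∃ X : ℕ, X₀ ≤ X ∧ 2 ≤ X ∧ (N : ℝ) * Real.log N / 9 ≤ X ∧ 0 < Real.log X ∧
      Real.log X ≤ 2 * Real.log N ∧ 1 ≤ N ∧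
      Λ * Real.log X ≤ X ∧ Nat.primeCounting (3 * X) ≤ N := by
  have hpi := Pool.Agent.Helper923.PNT.pi_tendsto
  have hX3 : Tendsto (fun X : ℕ => (3 : ℝ) * X) atTop atTop :=
    tendsto_natCast_atTop_atTop.const_mul_atTop (by norm_num)
  have t2 : Tendsto (fun X : ℕ => (Nat.primeCounting (3 * X) : ℝ) * Real.log (3 * X) / (3 * X))
      atTop (𝓝 1) := by
    have := hpi.comp hX3
    refine this.congr fun X => ?_
    have h : ⌊(3 : ℝ) * X⌋₊ = 3 * X := by
      have : (3 : ℝ) * X = ((3 * X : ℕ) : ℝ) := by push_cast; ring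
      rw [this, Nat.floor_natCast]
    simp only [Function.comp_apply, h]
  have t4 : Tendsto (fun X : ℕ => Λ * (Real.log X / X)) atTop (𝓝 (Λ * 0)) := by
    have h := (Real.isLittleO_log_id_atTop).tendsto_div_nhds_zero
    have := (h.comp tendsto_natCast_atTop_atTop).const_mul Λ
    refine this.congr fun X => ?_
    simp
  rw [mul_zero] at t4
  have e2 := t2.eventually_le_const (show (1 : ℝ) < 2 by norm_num)
  have e4 := t4.eventually_le_const (show (0 : ℝ) < 1 by norm_num)
  obtain ⟨X₁, hX₁⟩ := Filter.eventually_atTop.1 (e2.and e4)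
  -- choice of `N₀`
  have hlog : Tendsto (fun N : ℕ => Real.log N) atTop atTop :=
    Real.tendsto_log_atTop.comp tendsto_natCast_atTop_atTop
  have f1 := hlog.eventually_ge_atTop (3 : ℝ)
  have f2 := Filter.eventually_ge_atTop (max (9 * (X₀ + X₁ + 2)) 24)
  obtain ⟨N₀, hN₀⟩ := Filter.eventually_atTop.1 (f1.and f2)
  refine ⟨N₀, fun N hN => ?_⟩
  obtain ⟨g1, g2⟩ := hN₀ N hN
  have g3 : 9 * (X₀ + X₁ + 2) ≤ N := le_trans (le_max_left _ _) g2
  have g4 : 24 ≤ N := le_trans (le_max_right _ _) g2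
  have g3r : (9 : ℝ) * (X₀ + X₁ + 2) ≤ N := by exact_mod_cast g3
  have g4r : (24 : ℝ) ≤ N := by exact_mod_cast g4
  set L := Real.log N with hL
  have hNL : (N : ℝ) * 3 ≤ N * L := by
    apply mul_le_mul_of_nonneg_left g1 (by linarith)
  set X := ⌊(N : ℝ) * L / 8⌋₊ with hXdef
  have hx1 : (N : ℝ) * L / 8 < X + 1 := Nat.lt_floor_add_one _
  have hx2 : (X : ℝ) ≤ N * L / 8 := Nat.floor_le (by linarith)
  have hx3 : (N : ℝ) * L / 9 ≤ X := by linarith
  have hx4 : (X₀ : ℝ) + X₁ + 2 ≤ X := by linarith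
  have hx5 : X₀ + X₁ + 2 ≤ X := by exact_mod_cast hx4
  have hXr : (2 : ℝ) ≤ X := by
    have h1 : (0 : ℝ) ≤ X₀ := Nat.cast_nonneg _
    have h2 : (0 : ℝ) ≤ X₁ := Nat.cast_nonneg _
    linarith
  have hXpos : (0 : ℝ) < X := by linarith
  have hNpos : (0 : ℝ) < N := by linarith
  obtain ⟨k2, k4⟩ := hX₁ X (by omega)
  have hlogX : 0 < Real.log X := Real.log_pos (by linarith)
  have hLN : L ≤ N := by
    have := Real.log_le_sub_one_of_pos hNpos
    linarith
  refine ⟨X, by omega, by omega, hx3, hlogX, ?_, by omega, ?_, ?_⟩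
  · have h1 : (X : ℝ) ≤ N ^ 2 := by
      have : (N : ℝ) * L ≤ N * N := mul_le_mul_of_nonneg_left hLN hNpos.le
      nlinarith
    calc Real.log X ≤ Real.log ((N : ℝ) ^ 2) := Real.log_le_log hXpos h1
      _ = 2 * L := by rw [Real.log_pow]; push_cast; ring
  · have h1 : Λ * (Real.log X / X) * X ≤ 1 * X := mul_le_mul_of_nonneg_right k4 hXpos.le
    have h2 : Λ * (Real.log X / X) * X = Λ * Real.log X := by field_simp
    linarith
  · have h3X : (N : ℝ) ≤ 3 * X := by linarith
    have hl3 : L ≤ Real.log (3 * X) := Real.log_le_log hNpos h3X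
    have hLpos : 0 < L := by linarith
    have hl3pos : 0 < Real.log (3 * X) := by linarith
    have h1 : (Nat.primeCounting (3 * X) : ℝ) * Real.log (3 * X) ≤ 2 * (3 * X) := by
      rwa [div_le_iff₀ (by positivity)] at k2
    have h2 : (Nat.primeCounting (3 * X) : ℝ) * L ≤ (Nat.primeCounting (3 * X) : ℝ) * Real.log (3 * X) :=
      mul_le_mul_of_nonneg_left hl3 (Nat.cast_nonneg _)
    have h3 : (Nat.primeCounting (3 * X) : ℝ) * L ≤ N * L := by nlinarith
    have h4 : (Nat.primeCounting (3 * X) : ℝ) ≤ N := le_of_mul_le_mul_right h3 hLpos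
    exact_mod_cast h4

open Classical in
/-- TRA -/
theorem tra : Tra := by
  intro c Λ hc hΛ
  refine ⟨c / (18 * Λ), by positivity, fun X₀ => ?_⟩
  obtain ⟨N₀, hN₀⟩ := scale_choice Λ X₀
  refine ⟨N₀, fun N hN => ?_⟩
  obtain ⟨X, hX0, hX2, hX9, hlX, hlX2, hN1, hΛX, hπ⟩ := hN₀ N hN
  refine ⟨X, hX0, fun R hR => ?_⟩
  set B := ⌊Λ * Real.log X⌋₊ with hB
  set G := (Ico X (2 * X)).filter (fun n => ∃ a ∈ Icc 1 B, (n + a).Prime ∧ R (n + a)) with hG
  have hBle : (B : ℝ) ≤ Λ * Real.log X := Nat.floor_le (by positivity)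
  have hBX : B ≤ X := by
    have : (B : ℝ) ≤ X := hBle.trans hΛX
    exact_mod_cast this
  -- the choice of the prime
  have hch : ∀ n ∈ G, ∃ q : ℕ, q.Prime ∧ R q ∧ n < q ∧ q ≤ n + B := by
    intro n hn
    rw [hG, mem_filter] at hn
    obtain ⟨_, a, ha, hp, hr⟩ := hn
    rw [mem_Icc] at ha
    exact ⟨n + a, hp, hr, by omega, by omega⟩
  choose! φ h1 h2 h3 h4 using hch
  -- the set of primes
  have hfib : G.card ≤ B * (G.image φ).card := by
    apply Finset.card_le_mul_card_image
    intro q hq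
    have : (G.filter (fun n => φ n = q)) ⊆ (Ico (q - B) q) := by
      intro n hn
      rw [mem_filter] at hn
      have := h3 n hn.1
      have := h4 n hn.1
      rw [mem_Ico]
      omega
    calc _ ≤ (Ico (q - B) q).card := card_le_card this
      _ ≤ B := by rw [Nat.card_Ico]; omega
  -- indices
  have hidx : (G.image φ).card ≤ ((range N).filter (fun j => R (P j))).card := by
    apply Finset.card_le_card_of_injOn (fun q => Nat.count Nat.Prime q)
    · intro q hq
      rw [Finset.mem_coe, mem_image] at hq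
      obtain ⟨n, hn, rfl⟩ := hq
      have hq1 := h1 n hn
      have hPj : P (Nat.count Nat.Prime (φ n)) = φ n := Nat.nth_count hq1
      rw [Finset.mem_coe, mem_filter, mem_range]
      refine ⟨?_, ?_⟩
      · have hnX : n < 2 * X := by
          rw [hG, mem_filter, mem_Ico] at hn
          exact hn.1.2
        have hq4 := h4 n hn
        calc Nat.count Nat.Prime (φ n) < Nat.count Nat.Prime (φ n + 1) := by
              rw [Nat.count_succ, if_pos hq1]; omega
          _ ≤ Nat.count Nat.Prime (3 * X + 1) := Nat.count_monotone _ (by omega)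
          _ = Nat.primeCounting (3 * X) := rfl
          _ ≤ N := hπ
      · simp only []
        rw [hPj]
        exact h2 n hn
    · intro q hq q' hq' he
      rw [Finset.mem_coe, mem_image] at hq hq'
      obtain ⟨n, hn, rfl⟩ := hq
      obtain ⟨n', hn', rfl⟩ := hq'
      exact Nat.count_injective (h1 n hn) (h1 n' hn') he
  -- conclusion
  have k1 : (G.card : ℝ) ≤ B * ((range N).filter (fun j => R (P j))).card := by
    have := hfib.trans (Nat.mul_le_mul_left B hidx)
    exact_mod_cast this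
  set S : ℝ := (((range N).filter (fun j => R (P j))).card : ℝ) with hS
  have hS0 : 0 ≤ S := Nat.cast_nonneg _
  have hNpos : (0 : ℝ) < N := by exact_mod_cast hN1
  have hLN : 0 < Real.log N := by linarith
  have k2 : c * (N * Real.log N / 9) ≤ (Λ * (2 * Real.log N)) * S := by
    calc c * (N * Real.log N / 9) ≤ c * X := mul_le_mul_of_nonneg_left hX9 hc.le
      _ ≤ G.card := hR
      _ ≤ B * S := k1
      _ ≤ (Λ * (2 * Real.log N)) * S := by
          apply mul_le_mul_of_nonneg_right _ hS0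
          exact hBle.trans (mul_le_mul_of_nonneg_left hlX2 hΛ.le)
  have k3 : (c * N) * Real.log N ≤ (18 * Λ * S) * Real.log N := by nlinarith
  have k4 : c * N ≤ 18 * Λ * S := le_of_mul_le_mul_right k3 hLN
  rw [div_mul_eq_mul_div, div_le_iff₀ (by positivity)]
  linarith

end Pool.Agent.H403R2.PP
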